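import Pool.Agent.H10.Lamp

namespace Pool.Agent.Results.MP_f5330b_al.NotQI
open Pool.Agent.H10.Lamp Filter Topology SimpleGraph

/-- The isomorphism class of `G` among `n`-generated marked groups: indicator functions of normal
subgroups `N` of the free group with quotient isomorphic to `G` (product topology). -/
def cls (G : Type) [Group G] (n : ℕ) : Set (FreeGroup (Fin n) → Bool) :=
  {χ | ∃ (N : Subgroup (FreeGroup (Fin n))) (_ : N.Normal),
    (∀ w, χ w = true ↔ w ∈ N) ∧ Nonempty ((FreeGroup (Fin n) ⧸ N) ≃* G)}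

/-- The isomorphism class has no isolated point in the disjoint union of the spaces. -/
def Condensed (G : Type) [Group G] : Prop := ∀ n, 1 ≤ n → Preperfect (cls G n)

/-- Cayley graphs for finite generating sets are quasi-isometric. -/
def QI (G H : Type) [Group G] [Group H] : Prop :=
  ∃ (S : Finset G) (T : Finset H), Subgroup.closure (S : Set G) = ⊤ ∧
    Subgroup.closure (T : Set H) = ⊤ ∧ ∃ (φ : G → H) (C : ℕ),
      (∀ g g', (mulCayley (T : Set H)).edist (φ g) (φ g') ≤
          C * (mulCayley (S : Set G)).edist g g' + C ∧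
        (mulCayley (S : Set G)).edist g g' ≤ C * (mulCayley (T : Set H)).edist (φ g) (φ g') + C) ∧
      ∀ h, ∃ g, (mulCayley (T : Set H)).edist (φ g) h ≤ C

theorem one {G : Type} [Group G] {S : Set G} {u v s : G} (hs : s ∈ S) (h : u * s = v ∨ u = v * s) :
    (mulCayley S).edist u v ≤ 1 :=
  edist_le_one_iff_adj_or_eq.2 <| (em (u = v)).symm.imp_left fun n =>
    (mulCayley_adj' S u v).2 ⟨n, s, hs, h⟩

theorem qi {G H : Type} [Group G] [Group H] (p : G →* H) (hp : Function.Surjective p)
    (S : Finset G) (hS : Subgroup.closure (S : Set G) = ⊤) (hk : ∀ g, p g = 1 → g = 1 ∨ g ∈ S) :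
    QI G H := by
  classical
  refine ⟨S, S.image p, hS, ?_, p, 1, fun g g' => ⟨?_, ?_⟩, fun h => ?_⟩
  · rw [Finset.coe_image, ← MonoidHom.map_closure, hS, Subgroup.map_top_of_surjective _ hp]
  · refine le_trans (le_iInf fun W => ?_) (by simp : (mulCayley (S : Set G)).edist g g' ≤ _)
    induction W with
    | nil => simp
    | cons a W ih =>
      obtain ⟨-, s, h1, h2⟩ := (mulCayley_adj' _ _ _).1 a
      refine SimpleGraph.edist_triangle.trans ((add_le_add (one (s := p s) (by simpa using ⟨s, h1, rfl⟩)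
        (h2.imp (fun h => by simp [← h]) fun h => by simp [h])) ih).trans ?_)
      simp [add_comm]
  · have : ∀ x y (W : (mulCayley (S.image p : Set H)).Walk x y) u v, p u = x → p v = y →
        (mulCayley (S : Set G)).edist u v ≤ W.length + 1 := fun x y W => by
      induction W with
      | nil =>
        intro u v h1 h2
        rcases hk (u⁻¹ * v) (by simp [h1, h2]) with h | h
        · simp [inv_mul_eq_one.1 h]
        · simpa using one h (.inl (by simp))
      | cons a W ih =>
        rintro u v rfl rfl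
        obtain ⟨-, t, h1, h2⟩ := (mulCayley_adj' _ _ _).1 a
        obtain ⟨s, h3, rfl⟩ := Finset.mem_image.1 h1
        rcases h2 with h | h
        · refine SimpleGraph.edist_triangle.trans ((add_le_add (one (v := u * s) h3 (.inl rfl))
            (ih _ _ (by simpa using h) rfl)).trans ?_)
          simp [add_comm]
        · refine SimpleGraph.edist_triangle.trans ((add_le_add (one (v := u * s⁻¹) h3 (.inr (by simp)))
            (ih _ _ (by simp [h]) rfl)).trans ?_)
          simp [add_comm]
    by_cases e : (mulCayley (S.image p : Set H)).edist (p g) (p g') = ⊤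
    · simp [-Finset.coe_image, e]
    · obtain ⟨W, hW⟩ := exists_walk_of_edist_ne_top e
      simpa [-Finset.coe_image, hW] using this _ _ W _ _ rfl rfl
  · obtain ⟨g, rfl⟩ := hp h
    exact ⟨g, by simp⟩

theorem mem_cls {G : Type} [Group G] {n : ℕ} {χ : FreeGroup (Fin n) → Bool} : χ ∈ cls G n ↔
    ∃ f : FreeGroup (Fin n) →* G, Function.Surjective f ∧ ∀ w, χ w = true ↔ f w = 1 :=
  ⟨fun ⟨N, _, h, ⟨e⟩⟩ => ⟨e.toMonoidHom.comp (QuotientGroup.mk' N),
    e.surjective.comp (QuotientGroup.mk'_surjective N), fun w => by simp [h]⟩,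
  fun ⟨f, h1, h2⟩ => ⟨f.ker, inferInstance, h2, ⟨QuotientGroup.quotientKerEquivOfSurjective f h1⟩⟩⟩

theorem result : ∃ (G H : Type) (_ : Group G) (_ : Group H), Group.FG G ∧ Group.FG H ∧ QI G H ∧
    Condensed G ∧ ¬ Condensed H := by
  classical
  let S : Finset (G Bm) := {gen Bm 0, gen Bm 1, gen Bm 2, ⟨0, 0, 1, 0⟩}
  have c : ∀ x : ZMod 2, x = 0 ∨ x = 1 := by decide
  have hS : Subgroup.closure (S : Set (G Bm)) = ⊤ := gen_top _
    (fun i => Subgroup.subset_closure (by fin_cases i <;> simp [S])) fun x => by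
      rcases c x with rfl | rfl
      · exact one_mem _
      · exact Subgroup.subset_closure (by simp [S])
  have hp : Function.Surjective (pr (B := Bm)) := fun g => ⟨⟨g.v, g.w, 0, g.k⟩, rfl⟩
  have fg : Group.FG (G Bm) := ⟨S, hS⟩
  refine ⟨G Bm, L, inferInstance, inferInstance, fg, Group.fg_of_surjective hp,
    qi _ hp S hS fun g hg => ?_, fun n _ χ hχ => ?_, fun h => ?_⟩
  · have : g = ⟨0, 0, g.x, 0⟩ := G.ext (congrArg G.v hg :) (congrArg G.w hg :) rfl (congrArg G.k hg :)
    rw [this]
    exact (c g.x).imp (fun h => by rw [h]; rfl) fun h => by simp [S, h]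
  · obtain ⟨f, h1, h2⟩ := mem_cls.1 hχ
    obtain ⟨F, F1, F2⟩ := lim f h1
    have : Tendsto (fun k w => decide (F k w = 1)) atTop (𝓝 χ) := tendsto_pi_nhds.2 fun w =>
      tendsto_const_nhds.congr' ((F2 w).mono fun k hk => by
        rw [Bool.eq_iff_iff, h2, decide_eq_true_eq, hk])
    refine accPt_iff_frequently.2 (this.frequently (.of_forall fun k =>
      ⟨fun e => ?_, mem_cls.2 ⟨F k, (F1 k).1, by simp⟩⟩))
    obtain ⟨w, w1, w2⟩ := (F1 k).2
    exact w2 (by simpa [(h2 w).2 w1] using congrFun e w)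
  · let π : FreeGroup (Fin 3) →* L := FreeGroup.lift (gen 0)
    have s : Function.Surjective π := MonoidHom.range_eq_top.1 <| gen_top _
      (fun i => ⟨.of i, by simp [π]⟩) fun _ => one_mem _
    have two : (2 : V) = 0 := by
      rw [← map_ofNat LaurentPolynomial.C 2, show (2 : ZMod 2) = 0 from rfl, map_zero]
    obtain ⟨χ, ⟨⟨a, b⟩, h1⟩, h2⟩ := accPt_iff_nhds.1 (h 3 (by norm_num) (fun w => decide (π w = 1))
      (mem_cls.2 ⟨π, s, by simp⟩)) {χ | χ (.of 1 ^ 2) = true ∧ χ (.of 2 ^ 2) = true}
      (((((continuous_apply (A := fun _ => Bool) _).isOpen_preimage {true} (isOpen_discrete _)).inter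
        ((continuous_apply (A := fun _ => Bool) _).isOpen_preimage {true} (isOpen_discrete _))).mem_nhds
        (by constructor <;> simp [π, gen, sq, G.ext_iff, one_add_one_eq_two, two])))
    obtain ⟨f, f1, f2⟩ := mem_cls.1 h1
    have := rigid f f1 (by simpa using (f2 _).1 a) (by simpa using (f2 _).1 b)
    exact h2 (funext fun w => by
      rw [Bool.eq_iff_iff, f2, decide_eq_true_eq, ← MonoidHom.mem_ker, this, MonoidHom.mem_ker])

end Pool.Agent.Results.MP_f5330b_al.NotQI
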